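import Pool.Agent.MP_5d9b3c_ag.O3.Top
import Pool.Agent.MP_5d9b3c_ag.O3I.Defs
import Pool.Agent.MP_5d9b3c_ag.P3.Pre
import Pool.Agent.MP_5d9b3c_ag.P3D.Igu
import Pool.Agent.MP_ee8c61_ag.N3L.Final

/-! No pole on a chart of the blow-up, from the statements of the blocks. -/

namespace Pool.Agent.MP_ee8c61_ag.N3

open Pool.Agent.MP_ee8c61_ag.M3 Pool.Agent.MP_5d9b3c_ag P3 P3T BK.P3D Set MvPolynomial
open P3D (AK xK fK coe_fK rst xK_ind xK_dual xK_frac)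
open O3I (rat fac dom)
open Pool.Agent.MP_ee8c61_ag.M3L (aw le_aw aw_le)

noncomputable section

variable {p : ℕ} [Fact p.Prime] [Algebra ℚ_[p] ℂ] {r : ℕ} (f : Fin r → MvPolynomial (Fin 3) ℤ)
  (j : Fin r)

variable (p) in
/-- The generators of the region of the chart `j`. -/
def tj : Fin 3 ⊕ Fin r → (AK p).fix := Sum.elim (xK p) (rat p (xK p) f j)

theorem coe_rat (i : Fin r) : ((rat p (xK p) f j i : (AK p).fix) : KK 3) =
    algebraMap ℂ _ (fac p j i : ℂ)⁻¹ *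
    (M3.ip 3 (map (Int.castRingHom ℂ) (f i)) / M3.ip 3 (map (Int.castRingHom ℂ) (f j))) := by
  rw [← coe_fK (p := p), ← coe_fK (p := p), rat, map_inv₀, map_natCast]
  push_cast
  rw [← div_div, div_right_comm, div_eq_inv_mul]
  rfl

theorem adj_tj : Algebra.adjoin ℂ (range fun i => (tj p f j i : KK 3)) =
    aw (A0 (fun i => map (Int.castRingHom ℂ) (f i)) j) 1 := by
  refine le_antisymm (Algebra.adjoin_le ?_) (aw_le (A0_le (fun q => ?_) fun i => ?_)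
    (by rw [inv_one]; exact one_mem _))
  · rintro _ ⟨l | i, rfl⟩
    · exact le_aw (pol_mem (X l))
    · exact le_aw ((congrArg (· ∈ _) (coe_rat f j i)).mpr (mul_mem (Subalgebra.algebraMap_mem _ _)
        (rat_mem (F := fun i => map (Int.castRingHom ℂ) (f i)) i)))
  · induction q using MvPolynomial.induction_on with
    | C c => exact (M3.ip 3).commutes c ▸ Subalgebra.algebraMap_mem _ c
    | add q q' h h' => exact map_add (M3.ip 3) q q' ▸ add_mem h h'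
    | mul_X q l h =>
      exact map_mul (M3.ip 3) q _ ▸ mul_mem h (Algebra.subset_adjoin ⟨.inl l, rfl⟩)
  · have h0 : (fac p j i : ℂ) ≠ 0 := Nat.cast_ne_zero.2 (by
      rw [fac]
      split_ifs
      exacts [(Fact.out : p.Prime).ne_zero, one_ne_zero])
    have := mul_mem (Subalgebra.algebraMap_mem _ (fac p j i : ℂ))
      (Algebra.subset_adjoin (R := ℂ) (s := range fun i => (tj p f j i : KK 3))
        ⟨.inr i, coe_rat f j i⟩)
    rwa [← mul_assoc, ← map_mul, mul_inv_cancel₀ h0, map_one, one_mul] at this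

theorem core_of (hG : SBaseG) (hS : SBSI) (hI : O3I.RIGJ)
    (h : ∀ [Base] (p : ℕ) [Fact p.Prime] [Algebra ℚ_[p] ℂ] [Rgn p] [Algebra.IsAlgebraic ℚ_[p] ℂ],
      SB1R ∧ SHYP ℚ_[p] ∧ SSTAR ℚ_[p] ∧ SBX p ∧ SCOV0 p ∧ SBK p) : O3I.Core := by
  intro r f j p _ b T h0 hT hb hn
  have hp : p.Prime := Fact.out
  obtain ⟨_, _⟩ := exists_alg p
  obtain ⟨B, hF, h1, h2⟩ := hG ℚ_[p] (range fun i => (tj p f j i : KK 3)) (finite_range _)
    (by rintro _ ⟨i, rfl⟩; exact (tj p f j i).2)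
    fun q => adj_tj (p := p) f j ▸ le_aw (pol_mem q)
  let _ : Rgn p := ⟨hF, _, inferInstance, tj p f j, fun V => (h2 V).trans
    ⟨fun k => ⟨fun c => k _ (Subalgebra.algebraMap_mem _ c),
      fun i => k _ (Algebra.subset_adjoin ⟨i, rfl⟩)⟩, fun k => Algebra.adjoin_le
        (S := ⟨V.toSubring.toSubsemiring, k.1⟩) (range_subset_iff.2 k.2)⟩⟩
  obtain ⟨hB, hH, hT', hX, hC, hK⟩ := h p
  have hO : Over B (aw (A0 (fun i => map (Int.castRingHom ℂ) (f i)) j) 1) :=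
    adj_tj (p := p) f j ▸ ⟨h1, h2⟩
  have f0 : map (Int.castRingHom ℂ) (f j) ≠ 0 := fun e =>
    h0 (map_injective _ Int.cast_injective (e.trans (map_zero _).symm))
  have gd := hO.gd f0 (one_mem _) one_ne_zero
  have he : (fK p (f j) : KK 3) = ip 3 (pp 3 (map (Int.castRingHom ℂ) (f j))) := coe_fK _
  have fx : FxP ℚ_[p] (pp 3 (map (Int.castRingHom ℂ) (f j))) := by
    rw [FxP, ← he]
    exact (fK p (f j)).2
  obtain ⟨W, M, hM, -⟩ := hB ℚ_[p] 3 _ {1} gd fx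
    (fun g hg σ => by rw [Finset.mem_singleton.1 hg, map_one, map_one]) ⟨0, by simp⟩
  obtain ⟨h3, 𝓑, hU⟩ := hX _ W M (fK p (f j)) hM fx he
  suffices k : 𝓑.Np T by
    obtain ⟨K, _, _, ξ, O, ε, hξ, rfl, k1, k2⟩ := k
    have c := hC _ _ M 𝓑 hM.ok h3
    rw [show range (tK p) = dom p (xK p) f j from Set.Sum.elim_range _ _] at c
    exact hI (xK p) (fun i => rst (invV_pd i)) f j (fun b => (𝓑.c b).b) 𝓑.md xK_ind xK_dual
      xK_frac c.dis c.itg c.cov 𝓑.md_adp ξ O ε hξ k1 k2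
  by_cases h4 : ∀ o, T ^ M.a o ≠ (p : ℂ) ^ (M.k o + 1)
  · exact 𝓑.np_of hT h4
  obtain ⟨o, ho⟩ := not_forall.1 h4
  have h5 := norm_eq (hM.ok.pos o) (not_not.1 ho)
  rw [log_eq hp h5] at hn
  obtain ⟨β, Q, h6⟩ := hS r _ b j 1 B hb f0 (one_mem _) one_ne_zero hO
  obtain ⟨b', β', Q', H, G⟩ := hH _ _ b β Q fx ⟨gd.1, h6, hn⟩
  exact hK _ _ _ b' β' Q' M T 𝓑 he H G hM.ok h3 hU
    (fun o ho => hT' _ _ b' β' Q' W M o H G fx hM ho) h5

end

end Pool.Agent.MP_ee8c61_ag.N3
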