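import Pool.Agent.MP_5d9b3c_ag.P3T.KK
import Pool.Agent.MP_ee8c61_ag.N3.Defs

/-! Models over a base that are stable under the Galois group: the statements. -/

namespace Pool.Agent.MP_ee8c61_ag.N3

open Pool.Agent.MP_ee8c61_ag.M3 Pool.Agent.MP_5d9b3c_ag P3 P3T
open Pool.Agent.MP_96693b_ag.RS (Loc LocOf)

set_option linter.unusedSectionVars false

noncomputable section

variable [Base] (F : Type) [Field F] [Algebra F ℂ] {N : ℕ}

/-- The generators of the base are defined over `F`. -/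
class FB : Prop where
  fix : ∀ N l, xx N l ∈ (gaK F N).fix

/-- The function is defined over `F`. -/
def FxP (g : Po N) : Prop := ip N g ∈ (gaK F N).fix

/-- The model `M` of `f` is defined over `F`. -/
structure StM (f : Po N) (W : Set (Subalgebra ℂ (KK N))) (M : Mod N) : Prop where
  ok : M.OK f
  fg : ∀ B ∈ W, B.FG
  stb : ∀ B ∈ W, (gaK F N).Stb B
  pts : ∀ Q, Q ∈ M.pts ↔ ∃ B ∈ W, LocOf B Q
  perm : ∀ (σ : Gm F) j, ∃ j', M.v j' = ((gaK F N).si σ).dv (M.v j)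
  sep : ∀ Q ∈ M.pts, (gaK F N).FixL Q → ∀ j, M.On Q j → (gaK F N).InvO (M.v j)
  amp : ∃ w, M.Amp w ∧ ∀ (σ : Gm F) j j', M.v j' = ((gaK F N).si σ).dv (M.v j) → w j' = w j

/-- Stable models that principalise a finite set of functions. -/
def SB1R : Prop := ∀ (F : Type) [Field F] [Algebra F ℂ] [Algebra.IsAlgebraic F ℂ] [FB F] (N : ℕ)
  (f : Po N) (G : Finset (Po N)), Gd f → FxP F f → (∀ g ∈ G, FxP F g) → (∃ r, f ^ r ∈ G) →
  ∃ W M, StM F f W M ∧ ∃ c, ∀ T : Finset (KK N), (T : Set (KK N)) = ip N '' G → M.Gens c T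

/-- Stable dominating models that principalise finitely many finite sets of functions. -/
def SB1G : Prop := ∀ (F : Type) [Field F] [Algebra F ℂ] [Algebra.IsAlgebraic F ℂ] [FB F] (N : ℕ)
  (f : Po N) (W : Set (Subalgebra ℂ (KK N))) (M : Mod N) (κ : Type) [Fintype κ]
  (G : κ → Finset (Po N)), FxP F f → StM F f W M → (∀ i, ∀ g ∈ G i, FxP F g) →
  (∀ i, ∃ r, f ^ r ∈ G i) →
  ∃ W' M', StM F f W' M' ∧ Nonempty (Dom M' M) ∧
    ∀ i, ∃ c, ∀ T : Finset (KK N), (T : Set (KK N)) = ip N '' G i → M'.Gens c T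

omit [Base] in
/-- An algebra with invariant generators is a base that is defined over `F`. -/
def SBaseG : Prop := ∀ (F : Type) [Field F] [Algebra F ℂ] [Algebra.IsAlgebraic F ℂ]
  (s : Set (KK 3)), s.Finite → (∀ g ∈ s, g ∈ (gaK F 3).fix) →
  (∀ q, M3.ip 3 q ∈ Algebra.adjoin ℂ s) → ∃ B : Base, @FB B F _ _ ∧
    (∀ l, @xx B 3 l ∈ Algebra.adjoin ℂ s) ∧ ∀ V, @Ov B 3 V ↔ ∀ g ∈ Algebra.adjoin ℂ s, g ∈ V

variable {F}

theorem ip_inj : Function.Injective (ip N) := Subtype.val_injective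

theorem ip_ne {g : Po N} (h : g ≠ 0) : ip N g ≠ 0 := fun e => h (Subtype.ext e)

omit [Base] in
theorem x0_fix (l : Fin N) : x0 N l ∈ (gaK F N).fix := P3T.xx_fix l

omit [Base] in
theorem gaK_x0 (σ : Gm F) (l : Fin N) : ((gaK F N).si σ).e (M3.xx N l) = M3.xx N l :=
  P3T.gaK_xx σ l

theorem invD_dvf {f : Po N} (hf : FxP F f) (la : ℚ) : (gaK F N).InvD (dvf f la) :=
  GA.invD_iff.2 fun σ => by
    rw [dvf, SI.dd_tw, ← SI.co_dv, SI.co_co (gaK_x0 σ), GA.si_e, hf σ, map_neg, map_ratCast]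

variable [FB F]

theorem xx_fix (l : Fin N) : xx N l ∈ (gaK F N).fix := FB.fix N l

theorem gaK_xx (σ : Gm F) (l : Fin N) : ((gaK F N).si σ).e (xx N l) = xx N l := xx_fix l σ

theorem ov_of (σ : Gm F) {V : Vl N} (h : Ov V) : Ov (((gaK F N).si σ).vs V) :=
  ov_iff.2 ⟨fun c => by
    obtain ⟨c, rfl⟩ := ((gaK F N).si σ).c.surjective c
    rw [← SI.map]
    exact (SI.e_mem_vs _).2 ((ov_iff.1 h).1 c),
    fun l => gaK_xx σ l ▸ (SI.e_mem_vs _).2 ((ov_iff.1 h).2 l)⟩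

theorem stb_Rb : (gaK F N).Stb (Rb N) := fun σ g hg => mem_Rb.2 fun V hV => by
  have := mem_Rb.1 hg _ (ov_of (F := F) σ⁻¹ hV)
  rwa [SI.mem_vs, ← GA.si_inv, inv_inv] at this

theorem stb_ip : (gaK F N).Stb (ip N).range := by
  rintro σ _ ⟨g, rfl⟩
  exact ⟨⟨_, stb_Rb σ _ g.2⟩, rfl⟩

theorem mem_ip (σ : Gm F) {g : KK N} :
    ((gaK F N).si σ).e g ∈ (ip N).range ↔ g ∈ (ip N).range :=
  ⟨fun h => (gaK F N).inv_ap σ g ▸ stb_ip σ⁻¹ _ h, stb_ip σ g⟩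

theorem ov_vs (σ : Gm F) {V : Vl N} : Ov (((gaK F N).si σ).vs V) ↔ Ov V :=
  ⟨fun h g => (SI.e_mem_vs _).1 (h ⟨_, stb_Rb σ _ g.2⟩), ov_of σ⟩

end

end Pool.Agent.MP_ee8c61_ag.N3
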