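import Pool.Agent.MP_5d9b3c_ag.O3D.Igu
import Pool.Agent.MP_5d9b3c_ag.P3G.Hyp

/-! The statements of the blocks over a base. -/

namespace Pool.Agent.MP_ee8c61_ag.N3

open Pool.Agent.MP_ee8c61_ag.M3 Pool.Agent.MP_5d9b3c_ag M3RESID P3 P3T BK.P3D
open P3D (AK)
open P3G (HypG)
open H59 (PX)

noncomputable section

variable [Base] (F : Type) [Field F] [Algebra F ℂ]

/-- The invariant divisor `o` has invariant frames. -/
def Frs (f : Po 3) (la : ℚ) (b : Polynomial ℂ) (β : Fin 3 → PX 3 (KK 3)) (M : Mod 3) (o : M.J)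
    (hO : (gaK F 3).InvO (M.v o)) : Prop :=
  ∃ (e : Dv (M.v o).kf) (v : VF (M.v o).kf),
    (M.v o).pl.RsD (dvf f la) e ∧ (M.v o).pl.Res (dvf f la) (bf la β) v ∧
    ((gaK F 3).res (M.v o).pl hO).InvD e ∧ ((gaK F 3).res (M.v o).pl hO).InvV v ∧
    ∀ t, (M.v o).v t = 1 → ∃ v' y g,
      ((gaK F 3).res (M.v o).pl hO).StarP e v (b.eval (-(la : ℂ)))
        (Set.range fun l => (M.v o).pl.π (xx 3 l)) ((M.v o).pl.π (ip 3 f / t ^ M.a o)) (M.a o)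
        v' y g

/-- The functional equation can be chosen invariant. -/
def SHYP : Prop := ∀ (f : Po 3) (la : ℚ) (b : Polynomial ℂ) (β : Fin 3 → PX 3 (KK 3))
  (Q : PX 3 (KK 3)), FxP F f → Hyp f la b β Q →
  ∃ b' β' Q', Hyp f la b' β' Q' ∧ HypG F la b' β' Q'

/-- Invariant divisors of exponent zero have invariant frames. -/
def SSTAR : Prop := ∀ (f : Po 3) (la : ℚ) (b : Polynomial ℂ) (β : Fin 3 → PX 3 (KK 3))
  (Q : PX 3 (KK 3)) (W : Set (Subalgebra ℂ (KK 3))) (M : Mod 3) (o : M.J), Hyp f la b β Q →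
  HypG F la b β Q → FxP F f → StM F f W M → M.ex la o = 0 → ∀ hO, Frs F f la b β M o hO

variable (p : ℕ) [Fact p.Prime] [Algebra ℚ_[p] ℂ] [Rgn p] [Algebra.IsAlgebraic ℚ_[p] ℂ]

/-- Stable models carry families of boxes. -/
def SBX : Prop := ∀ (f₀ : Po 3) (W : Set (Subalgebra ℂ (KK 3))) (M : Mod 3) (f : (AK p).fix),
  StM ℚ_[p] f₀ W M → FxP ℚ_[p] f₀ → (f : KK 3) = ip 3 f₀ → HasFam p f₀ f M

/-- Invariant frames kill the poles. -/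
def SBK : Prop := ∀ (f₀ : Po 3) (f : (AK p).fix) (la : ℚ) (b : Polynomial ℂ)
  (β : Fin 3 → PX 3 (KK 3)) (Q : PX 3 (KK 3)) (M : Mod 3) (T : ℂ) (𝓑 : Fam M f),
  (f : KK 3) = ip 3 f₀ → Hyp f₀ la b β Q → HypG ℚ_[p] la b β Q → M.OK f₀ → Stp p M → 𝓑.Up f₀ →
  (∀ o, M.ex la o = 0 → ∀ hO, Frs ℚ_[p] f₀ la b β M o hO) → ‖T‖ = (p : ℝ) ^ (la : ℝ) → 𝓑.Np T

end

end Pool.Agent.MP_ee8c61_ag.N3
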