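import Pool.Agent.MP_5d9b3c_ag.O3.Core
import Pool.Agent.MP_5d9b3c_ag.O3.Star
import Pool.Agent.MP_5d9b3c_ag.O3I.Igj
import Pool.Agent.MP_5d9b3c_ag.O3R.Out
import Pool.Agent.MP_5d9b3c_ag.O3X.SBX
import Pool.Agent.MP_5d9b3c_ag.O3X.Cov
import Pool.Agent.MP_5d9b3c_ag.O3D.Asm0
import Pool.Agent.MP_5d9b3c_ag.O3D.RCrsB
import Pool.Agent.MP_ee8c61_ag.N3.RBS

/-! The assembly of all blocks. -/

namespace Pool.Agent.MP_ee8c61_ag.N3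

open Pool.Agent.MP_5d9b3c_ag
open N3.M3E (eout)

theorem core : O3I.Core :=
  core_of P3R.sBaseG sbsi O3I.rIGJ fun p _ _ _ _ =>
    ⟨P3R.sb1R, sHYP _, star _, BK.P3D.sBX p eout, BK.P3D.sCOV0 p eout,
      BK.P3D.sbk_rows p eout MP_ee8c61_ag.M3L.scon (BK.P3D.rCRSb p)⟩

end Pool.Agent.MP_ee8c61_ag.N3
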